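import Pool.Agent.H687R3.AL.Stmts

/-!
# The Baer-Suzuki theorem for an involution (task of the project H687-AL2)
-/

set_option autoImplicit false

namespace Pool.Agent.H687R3.AL

open Subgroup MulAction

namespace BS

variable {G : Type} [Group G]

/-- the conjugacy class of `τ` -/
def cl (τ : G) : Set G := {d | ∃ g, d = g * τ * g⁻¹}

theorem cl_conj {τ d : G} (hd : d ∈ cl τ) (g : G) : g * d * g⁻¹ ∈ cl τ := by
  obtain ⟨a, rfl⟩ := hd
  exact ⟨g * a, by group⟩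

theorem cl_sq {τ d : G} (hτ : τ * τ = 1) (hd : d ∈ cl τ) : d * d = 1 := by
  obtain ⟨a, rfl⟩ := hd
  calc a * τ * a⁻¹ * (a * τ * a⁻¹) = a * (τ * τ) * a⁻¹ := by group
    _ = 1 := by rw [hτ]; group

theorem cl_two {τ d d' : G} (h : ∀ g : G, ∃ n, (τ * (g * τ * g⁻¹)) ^ 2 ^ n = 1)
    (hd : d ∈ cl τ) (hd' : d' ∈ cl τ) : ∃ n, (d * d') ^ 2 ^ n = 1 := by
  obtain ⟨a, rfl⟩ := hd
  obtain ⟨b, rfl⟩ := hd'
  obtain ⟨n, hn⟩ := h (a⁻¹ * b)
  refine ⟨n, ?_⟩
  have e : a * τ * a⁻¹ * (b * τ * b⁻¹) = a * (τ * (a⁻¹ * b * τ * (a⁻¹ * b)⁻¹)) * a⁻¹ := by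
    group
  rw [e, conj_pow, hn]
  group

theorem zpowers_pgroup {u : G} {n : ℕ} (hn : u ^ 2 ^ n = 1) : IsPGroup 2 (zpowers u) := by
  intro x
  obtain ⟨x, hx⟩ := x
  rw [mem_zpowers_iff] at hx
  obtain ⟨i, rfl⟩ := hx
  refine ⟨n, ?_⟩
  ext
  simp only [SubgroupClass.coe_pow, OneMemClass.coe_one]
  rw [← zpow_natCast, ← zpow_mul, mul_comm, zpow_mul, zpow_natCast, hn, one_zpow]

/-- an involution normalises a subgroup as soon as conjugation maps it into itself -/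
theorem mem_norm_of {x : G} (hx : x * x = 1) {H : Subgroup G}
    (h : ∀ g ∈ H, x * g * x⁻¹ ∈ H) : x ∈ normalizer (H : Set G) := by
  rw [mem_normalizer_iff]
  intro g
  refine ⟨fun hg => h g hg, fun hg => ?_⟩
  have h1 := h _ hg
  have hxi : x⁻¹ = x := inv_eq_of_mul_eq_one_left hx
  have e : x * (x * g * x⁻¹) * x⁻¹ = g := by
    rw [hxi]
    calc x * (x * g * x) * x = (x * x) * g * (x * x) := by group
      _ = g := by rw [hx]; group
  rwa [e] at h1

theorem dih_pgroup {τ d d' : G} (hτ : τ * τ = 1)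
    (h : ∀ g : G, ∃ n, (τ * (g * τ * g⁻¹)) ^ 2 ^ n = 1)
    (hd : d ∈ cl τ) (hd' : d' ∈ cl τ) : IsPGroup 2 (closure ({d, d'} : Set G)) := by
  obtain ⟨n, hn⟩ := cl_two h hd hd'
  have hs := cl_sq hτ hd
  have hs' := cl_sq hτ hd'
  have hi : d⁻¹ = d := inv_eq_of_mul_eq_one_left hs
  have hi' : d'⁻¹ = d' := inv_eq_of_mul_eq_one_left hs'
  have h1 : IsPGroup 2 (zpowers (d * d')) := zpowers_pgroup hn
  have h2 : IsPGroup 2 (zpowers d) := zpowers_pgroup (n := 1) (by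
    rw [pow_one, pow_two, hs])
  have h3 : zpowers d ≤ normalizer (zpowers (d * d') : Set G) := by
    rw [zpowers_le]
    refine mem_norm_of hs ?_
    intro g hg
    have hle : zpowers (d * d') ≤ (zpowers (d * d')).comap (MulAut.conj d).toMonoidHom := by
      rw [zpowers_le, mem_comap]
      simp only [MulEquiv.toMonoidHom_eq_coe, MonoidHom.coe_coe, MulAut.conj_apply]
      have e : d * (d * d') * d⁻¹ = (d * d')⁻¹ := by
        rw [mul_inv_rev, hi, hi']
        calc d * (d * d') * d = (d * d) * d' * d := by group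
          _ = d' * d := by rw [hs]; group
      rw [e]
      exact inv_mem (mem_zpowers _)
    have := hle hg
    rw [mem_comap] at this
    simpa only [MulEquiv.toMonoidHom_eq_coe, MonoidHom.coe_coe, MulAut.conj_apply] using this
  have h4 : IsPGroup 2 (zpowers (d * d') ⊔ zpowers d : Subgroup G) :=
    IsPGroup.to_sup_of_normal_left' h1 h2 h3
  refine h4.to_le ?_
  rw [closure_le]
  intro z hz
  rcases hz with rfl | hz
  · exact mem_sup_right (mem_zpowers _)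
  · rw [Set.mem_singleton_iff] at hz
    subst hz
    have e : z = d * (d * z) := by
      rw [← mul_assoc, hs, one_mul]
    have h5 : d * (d * z) ∈ zpowers (d * z) ⊔ zpowers d :=
      mul_mem (mem_sup_right (mem_zpowers _)) (mem_sup_left (mem_zpowers _))
    rwa [← e] at h5

/-- growth: if `E = T₀ ∩ cl τ` misses an element of `P ∩ cl τ`, some element of `P ∩ cl τ`
outside of `E` normalises `E` -/
theorem exists_norm [Finite G] (τ : G) (P Q : Sylow 2 G)
    (hne : ∃ z ∈ P, z ∈ cl τ ∧ z ∉ Q) :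
    ∃ x ∈ P, x ∈ cl τ ∧ x ∉ Q ∧
      ∀ g, g ∈ P → g ∈ Q → g ∈ cl τ → (x * g * x⁻¹ ∈ P ∧ x * g * x⁻¹ ∈ Q) := by
  classical
  let S : Set (Subgroup G) := {T | T ≤ (P : Subgroup G) ∧ (P ⊓ Q : Subgroup G) ≤ T ∧
    ∀ g ∈ T, g ∈ cl τ → g ∈ Q}
  have hS : S.Nonempty := ⟨(P ⊓ Q : Subgroup G), inf_le_left, le_rfl, fun g hg _ => hg.2⟩
  obtain ⟨T, hTm⟩ := (Set.toFinite S).exists_maximal hS
  obtain ⟨hTP, hTQ, hTD⟩ := hTm.prop
  have hmax : ∀ T' : Subgroup G, T' ∈ S → T ≤ T' → T' ≤ T := fun T' hT' h => hTm.le_of_ge hT' h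
  obtain ⟨z, hzP, hzD, hzQ⟩ := hne
  have hTne : T ≠ P := by
    intro h
    exact hzQ (hTD z (by rw [h]; exact hzP) hzD)
  have hlt : T < (P : Subgroup G) := lt_of_le_of_ne hTP hTne
  -- normalizer growth in the `2`-group `P`
  obtain ⟨s, hsP, hsT, hsN⟩ : ∃ s ∈ (P : Subgroup G), s ∉ T ∧ s ∈ normalizer (T : Set G) := by
    have hnil : Group.IsNilpotent (P : Subgroup G) := P.2.isNilpotent
    have hlt2 : T.subgroupOf P < ⊤ := by
      rw [lt_top_iff_ne_top]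
      intro h
      rw [subgroupOf_eq_top] at h
      exact hTne (le_antisymm hTP h)
    have hgrow := (Group.normalizerCondition_of_isNilpotent (G := (P : Subgroup G)))
      (T.subgroupOf P) hlt2
    obtain ⟨s, hs1, hs2⟩ := SetLike.exists_of_lt hgrow
    refine ⟨s.1, s.2, fun h => hs2 (mem_subgroupOf.2 h), ?_⟩
    rw [mem_normalizer_iff] at hs1 ⊢
    intro g
    constructor
    · intro hg
      have := (hs1 ⟨g, hTP hg⟩).1 (mem_subgroupOf.2 hg)
      exact mem_subgroupOf.1 this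
    · intro hg
      have hgP : g ∈ (P : Subgroup G) := by
        have h1 := hTP hg
        have h2 := mul_mem (mul_mem (inv_mem s.2) h1) s.2
        have e : (s : G)⁻¹ * (s * g * (s : G)⁻¹) * s = g := by group
        rwa [e] at h2
      have := (hs1 ⟨g, hgP⟩).2 (mem_subgroupOf.2 hg)
      exact mem_subgroupOf.1 this
  set T' : Subgroup G := (P : Subgroup G) ⊓ normalizer (T : Set G) with hT'
  have hTT' : T ≤ T' := le_inf hTP le_normalizer
  have hsT' : s ∈ T' := ⟨hsP, hsN⟩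
  have hT'S : T' ∉ S := fun h => hsT (hmax T' h hTT' hsT')
  have : ∃ x ∈ T', x ∈ cl τ ∧ x ∉ Q := by
    by_contra hcon
    push Not at hcon
    exact hT'S ⟨inf_le_left, hTQ.trans hTT', hcon⟩
  obtain ⟨x, hxT', hxD, hxQ⟩ := this
  refine ⟨x, hxT'.1, hxD, hxQ, ?_⟩
  intro g hgP hgQ hgD
  have h1 : g ∈ T := hTQ ⟨hgP, hgQ⟩
  have h2 : x * g * x⁻¹ ∈ T := (mem_normalizer_iff.1 hxT'.2 g).1 h1
  exact ⟨hTP h2, hTD _ h2 (cl_conj hgD x)⟩

theorem ncard_eq [Finite G] (τ : G) (P Q : Sylow 2 G) :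
    Set.ncard {z | z ∈ P ∧ z ∈ cl τ} = Set.ncard {z | z ∈ Q ∧ z ∈ cl τ} := by
  obtain ⟨g, hg⟩ := MulAction.exists_smul_eq G P Q
  have hmem : ∀ z, z ∈ Q ↔ g⁻¹ * z * g ∈ P := by
    intro z
    rw [← hg]
    change z ∈ (g • P : Sylow 2 G).toSubgroup ↔ _
    rw [Sylow.coe_subgroup_smul, Subgroup.mem_pointwise_smul_iff_inv_smul_mem]
    have e : (MulAut.conj g)⁻¹ • z = g⁻¹ * z * g := by
      rw [← map_inv]
      simp [MulAut.smul_def]
    rw [e]
    rfl
  refine Set.ncard_congr (fun z _ => g * z * g⁻¹) ?_ ?_ ?_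
  · rintro z ⟨hz1, hz2⟩
    refine ⟨?_, cl_conj hz2 g⟩
    rw [hmem]
    have e : g⁻¹ * (g * z * g⁻¹) * g = z := by group
    rwa [e]
  · intro a b _ _ hab
    have e : ∀ t : G, g⁻¹ * (g * t * g⁻¹) * g = t := fun t => by group
    rw [← e a, ← e b]
    exact congrArg (fun t => g⁻¹ * t * g) hab
  · rintro z ⟨hz1, hz2⟩
    refine ⟨g⁻¹ * z * g, ⟨(hmem z).1 hz1, ?_⟩, by group⟩
    have := cl_conj hz2 g⁻¹
    rwa [inv_inv] at this

end BS

open BS in
/-- **Baer-Suzuki theorem** for an involution. -/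
theorem taskBaerSuzuki : TaskBaerSuzuki := by
  classical
  intro G _ _ τ hτ h
  -- all Sylow subgroups contain the same conjugates
  have key : ∀ P Q : Sylow 2 G, {z | z ∈ P ∧ z ∈ cl τ} = {z | z ∈ Q ∧ z ∈ cl τ} := by
    by_contra hcon
    push Not at hcon
    let S : Set (Sylow 2 G × Sylow 2 G) :=
      {pq | {z | z ∈ pq.1 ∧ z ∈ cl τ} ≠ {z | z ∈ pq.2 ∧ z ∈ cl τ}}
    have hSne : S.Nonempty := by
      obtain ⟨P, Q, hPQ⟩ := hcon
      exact ⟨(P, Q), hPQ⟩
    obtain ⟨⟨P, Q⟩, hPQ, hmax⟩ := Set.exists_max_image S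
      (fun pq => Set.ncard {z | (z ∈ pq.1 ∧ z ∈ pq.2) ∧ z ∈ cl τ}) (Set.toFinite S) hSne
    have hne : {z | z ∈ P ∧ z ∈ cl τ} ≠ {z | z ∈ Q ∧ z ∈ cl τ} := hPQ
    have hcard := ncard_eq τ P Q
    have h1 : ∃ z ∈ P, z ∈ cl τ ∧ z ∉ Q := by
      by_contra hc
      push Not at hc
      exact hne (Set.eq_of_subset_of_ncard_le (fun z hz => ⟨hc z hz.1 hz.2, hz.2⟩)
        hcard.symm.le (Set.toFinite _))
    have h2 : ∃ z ∈ Q, z ∈ cl τ ∧ z ∉ P := by
      by_contra hc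
      push Not at hc
      have hsub : {z | z ∈ Q ∧ z ∈ cl τ} ⊆ {z | z ∈ P ∧ z ∈ cl τ} :=
        fun z hz => ⟨hc z hz.1 hz.2, hz.2⟩
      exact hne (Set.eq_of_subset_of_ncard_le hsub hcard.le (Set.toFinite _)).symm
    obtain ⟨x, hxP, hxD, hxQ, hxN⟩ := exists_norm τ P Q h1
    obtain ⟨y, hyQ, hyD, hyP, hyN⟩ := exists_norm τ Q P h2
    let E : Set G := {z | (z ∈ P ∧ z ∈ Q) ∧ z ∈ cl τ}
    have hnorm : ∀ w : G, w ∈ cl τ → (∀ g ∈ E, w * g * w⁻¹ ∈ E) →
        w ∈ normalizer (closure E : Set G) := by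
      intro w hw hwE
      refine mem_norm_of (cl_sq hτ hw) ?_
      intro g hg
      have hle : closure E ≤ (closure E).comap (MulAut.conj w).toMonoidHom := by
        rw [closure_le]
        intro z hz
        rw [SetLike.mem_coe, mem_comap]
        simp only [MulEquiv.toMonoidHom_eq_coe, MonoidHom.coe_coe, MulAut.conj_apply]
        exact subset_closure (hwE z hz)
      have := hle hg
      rw [mem_comap] at this
      simpa only [MulEquiv.toMonoidHom_eq_coe, MonoidHom.coe_coe, MulAut.conj_apply] using this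
    have hxR : x ∈ normalizer (closure E : Set G) := by
      refine hnorm x hxD ?_
      rintro g ⟨⟨hgP, hgQ⟩, hgD⟩
      exact ⟨hxN g hgP hgQ hgD, cl_conj hgD x⟩
    have hyR : y ∈ normalizer (closure E : Set G) := by
      refine hnorm y hyD ?_
      rintro g ⟨⟨hgP, hgQ⟩, hgD⟩
      exact ⟨(hyN g hgQ hgP hgD).symm, cl_conj hgD y⟩
    have hEp : IsPGroup 2 (closure E) := by
      refine P.2.to_le ?_
      rw [closure_le]
      exact fun z hz => hz.1.1
    have hXY := dih_pgroup hτ h hxD hyD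
    have hXYN : closure ({x, y} : Set G) ≤ normalizer (closure E : Set G) := by
      rw [closure_le]
      intro z hz
      rcases hz with rfl | hz
      · exact hxR
      · rw [Set.mem_singleton_iff] at hz
        subst hz
        exact hyR
    have hsup := IsPGroup.to_sup_of_normal_left' hEp hXY hXYN
    obtain ⟨R, hR⟩ := hsup.exists_le_sylow
    have hxS : x ∈ R := hR (mem_sup_right (subset_closure (by simp)))
    have hyS : y ∈ R := hR (mem_sup_right (subset_closure (by simp)))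
    have hlt : Set.ncard {z | (z ∈ P ∧ z ∈ Q) ∧ z ∈ cl τ} <
        Set.ncard {z | (z ∈ P ∧ z ∈ R) ∧ z ∈ cl τ} := by
      refine Set.ncard_lt_ncard ?_ (Set.toFinite _)
      refine ⟨fun z hz => ⟨⟨hz.1.1, hR (mem_sup_left (subset_closure hz))⟩, hz.2⟩, ?_⟩
      intro hc
      exact hxQ (hc (show x ∈ {z | (z ∈ P ∧ z ∈ R) ∧ z ∈ cl τ} from ⟨⟨hxP, hxS⟩, hxD⟩)).1.2
    have hPR : {z | z ∈ P ∧ z ∈ cl τ} = {z | z ∈ R ∧ z ∈ cl τ} := by
      by_contra hc
      exact absurd (hmax (P, R) hc) (not_le.2 hlt)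
    have : y ∈ {z | z ∈ P ∧ z ∈ cl τ} := by
      rw [hPR]
      exact ⟨hyS, hyD⟩
    exact hyP this.1
  -- conclusion
  obtain ⟨P⟩ := (inferInstance : Nonempty (Sylow 2 G))
  have hDP : ∀ d ∈ cl τ, d ∈ P := by
    intro d hd
    have h1 : IsPGroup 2 (zpowers d) := zpowers_pgroup (n := 1) (by
      rw [pow_one, pow_two, cl_sq hτ hd])
    obtain ⟨Q, hQ⟩ := h1.exists_le_sylow
    have h2 : d ∈ {z | z ∈ Q ∧ z ∈ cl τ} := ⟨hQ (mem_zpowers d), hd⟩
    rw [key Q P] at h2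
    exact h2.1
  refine P.2.to_le ?_
  rw [normalClosure, closure_le]
  intro z hz
  rw [Group.mem_conjugatesOfSet_iff] at hz
  obtain ⟨a, ha, hc⟩ := hz
  rw [Set.mem_singleton_iff] at ha
  subst ha
  rw [isConj_iff] at hc
  obtain ⟨g, hg⟩ := hc
  exact hDP z ⟨g, hg.symm⟩

end Pool.Agent.H687R3.AL
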