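import Pool.Agent.H687R3.AL.Stmts

/-!
# Task `TaskDiamond` (by helper383)

`f(o,a,b) = o((o\a)(o\b))` is equivariant under the multiplication group and totally symmetric, and
`x ⋄ y` is the point `c` with `f(x,y,c) = 1`.  With `m = f(a,b,d)`, `m s = d a`, `m r = d b` one gets
`d (a ⋄ (b ⋄ d)) = r s`, which is symmetric in `a, b`.
-/

set_option autoImplicit false

namespace Pool.Agent.H687R3.AL

namespace Diamond

variable {Q : Type} {A : AL Q}

/-- left division -/
noncomputable def ld (A : AL Q) (x y : Q) : Q := ((A.bijL x).2 y).choose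

lemma op_ld (x y : Q) : A.op x (ld A x y) = y := ((A.bijL x).2 y).choose_spec

lemma inj (x : Q) {y z : Q} (h : A.op x y = A.op x z) : y = z := (A.bijL x).1 h

/-- the totally symmetric ternary operation -/
noncomputable def f (A : AL Q) (o a b : Q) : Q := A.op o (A.op (ld A o a) (ld A o b))

lemma f_equiv (y o a b : Q) :
    A.op y (f A o a b) = f A (A.op y o) (A.op y a) (A.op y b) := by
  unfold f
  symm
  apply A.autL o y
  · rw [op_ld, op_ld]
  · rw [op_ld, op_ld]

lemma ld_e (x : Q) : ld A A.e x = x := inj A.e (by rw [op_ld, A.idl])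

lemma f_e (a b : Q) : f A A.e a b = A.op a b := by
  unfold f; rw [ld_e, ld_e, A.idl]

lemma f_symm_right (hc : ∀ x y, A.op x y = A.op y x) (o a b : Q) : f A o a b = f A o b a := by
  unfold f; rw [hc (ld A o a)]

lemma ld_self_e (hs : ∀ x, A.op x x = A.e) (a : Q) : ld A a A.e = a :=
  inj a (by rw [op_ld, hs])

lemma f_ae (hs : ∀ x, A.op x x = A.e) (a b : Q) : f A a A.e b = A.op a b := by
  unfold f; rw [ld_self_e hs, op_ld]

lemma f_symm_left (hs : ∀ x, A.op x x = A.e) (o a b : Q) : f A o a b = f A a o b := by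
  have h := congrArg (A.op o) ((f_e (ld A o a) (ld A o b)).trans (f_ae hs _ _).symm)
  rw [f_equiv, f_equiv, op_ld, op_ld, A.idr] at h
  exact h

lemma f_inj {a b c c' : Q} (h : f A a b c = f A a b c') : c = c' := by
  unfold f at h
  have h1 := inj _ (inj _ h)
  have h2 := congrArg (A.op a) h1
  rwa [op_ld, op_ld] at h2

lemma f_equiv_ld (y o a b : Q) :
    ld A y (f A o a b) = f A (ld A y o) (ld A y a) (ld A y b) := by
  apply inj (A := A) y
  rw [op_ld, f_equiv, op_ld, op_ld, op_ld]

lemma f_dist (a b p q r : Q) :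
    f A a b (f A p q r) = f A (f A a b p) (f A a b q) (f A a b r) := by
  have h : ∀ c, f A a b c = A.op a (A.op (ld A a b) (ld A a c)) := fun c => rfl
  rw [h (f A p q r), h p, h q, h r, f_equiv_ld, f_equiv, f_equiv]

lemma f_D (hs : ∀ x, A.op x x = A.e) {x y c : Q}
    (h : A.op (A.op x y) (A.op x c) = x) : f A x y c = A.e := by
  apply inj (A := A) x
  rw [f_equiv, hs, f_e, h, A.idr]

lemma key (hc : ∀ x y, A.op x y = A.op y x) (hs : ∀ x, A.op x x = A.e) {a b d g h s r m : Q}
    (hm : m = f A a b d) (h1 : f A b d g = A.e) (h2 : f A a g h = A.e)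
    (h3 : A.op m s = A.op d a) (h4 : A.op m r = A.op d b) :
    A.op d h = A.op r s := by
  have e1 : A.op m (f A b d h) = A.op d b := by
    have h5 := f_dist (A := A) b d a g h
    rw [h2, h1, f_ae hs] at h5
    have e2 : f A b d A.e = A.op b d := by rw [f_symm_right hc, f_ae hs]
    have e3 : f A b d a = m := by rw [hm, f_symm_right hc b d a, f_symm_left hs b a d]
    rw [e2, e3] at h5
    rw [← h5, hc b d]
  have e4 : r = f A b d h := inj m (h4.trans e1.symm)
  have e5 : A.op (A.op d b) (A.op d h) = A.op d r := by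
    have h5 := f_equiv (A := A) d b d h
    rw [hs, f_ae hs, ← e4] at h5
    exact h5.symm
  have e6 : f A m s r = d := by
    apply inj (A := A) m
    rw [f_equiv, hs, f_e, h3, h4]
    have h5 := f_equiv (A := A) d a b d
    rw [hs, ← hm, f_symm_right hc, f_ae hs] at h5
    rw [← h5, hc]
  have e7 : A.op r (ld A r (A.op d h)) = A.op d h := op_ld _ _
  have e8 : f A r m (ld A r (A.op d h)) = d := by
    apply inj (A := A) r
    rw [f_equiv, hs, f_e, e7, hc r m, h4, e5, hc]
  have e9 : ld A r (A.op d h) = s := by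
    apply f_inj (A := A) (a := r) (b := m)
    rw [e8, f_symm_left hs r m s, f_symm_right hc m r s, e6]
  rw [← e7, e9]

end Diamond

open Diamond in
theorem taskDiamond : TaskDiamond := by
  intro Q A hc hs D hD x y z
  have hf : ∀ x y, f A x y (D x y) = A.e := fun x y => f_D hs (hD x y)
  apply inj (A := A) z
  have k1 := key hc hs (rfl : f A x y z = f A x y z) (hf y z) (hf x (D y z))
    (op_ld _ (A.op z x)) (op_ld _ (A.op z y))
  have k2 := key hc hs (f_symm_left hs x y z) (hf x z) (hf y (D x z))
    (op_ld _ (A.op z y)) (op_ld _ (A.op z x))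
  rw [k1, k2, hc]

end Pool.Agent.H687R3.AL
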