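import Mathlib

/-! Statements for the project MP_427786_al (S01315): automorphic 2-loops. -/

set_option autoImplicit false

namespace Pool.Agent.H687R3.AL

/-- An automorphic loop (axioms in the form of the frozen statement S01315). -/
structure AL (Q : Type) where
  op : Q → Q → Q
  e : Q
  idl : ∀ x, op e x = x
  idr : ∀ x, op x e = x
  bijL : ∀ x, Function.Bijective (fun y => op x y)
  bijR : ∀ x, Function.Bijective (fun y => op y x)
  autL : ∀ x y z₁ z₂ w₁ w₂ : Q,
      op (op y x) w₁ = op y (op x z₁) →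
      op (op y x) w₂ = op y (op x z₂) →
      op (op y x) (op w₁ w₂) = op y (op x (op z₁ z₂))
  autR : ∀ x y z₁ z₂ w₁ w₂ : Q,
      op w₁ (op x y) = op (op z₁ x) y →
      op w₂ (op x y) = op (op z₂ x) y →
      op (op w₁ w₂) (op x y) = op (op (op z₁ z₂) x) y
  autT : ∀ x z₁ z₂ w₁ w₂ : Q,
      op w₁ x = op x z₁ →
      op w₂ x = op x z₂ →
      op (op w₁ w₂) x = op x (op z₁ z₂)

/-- TASK DIAMOND. In a commutative automorphic loop of exponent 2 the operation
`x ⋄ y = x \ ((x y) \ x)`, i.e. `(x y) (x (x ⋄ y)) = x`, satisfies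
`x ⋄ (y ⋄ z) = y ⋄ (x ⋄ z)` (so `(Q, ⋄)` is an elementary abelian 2-group). -/
def TaskDiamond : Prop :=
  ∀ (Q : Type) (A : AL Q), (∀ x y, A.op x y = A.op y x) → (∀ x, A.op x x = A.e) →
    ∀ D : Q → Q → Q, (∀ x y, A.op (A.op x y) (A.op x (D x y)) = x) →
      ∀ x y z, D x (D y z) = D y (D x z)

/-- TASK BAERSUZUKI (for an involution). -/
def TaskBaerSuzuki : Prop :=
  ∀ (G : Type) [Group G] [Finite G] (τ : G), τ * τ = 1 →
    (∀ g : G, ∃ n, (τ * (g * τ * g⁻¹)) ^ 2 ^ n = 1) →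
    IsPGroup 2 (Subgroup.normalClosure {τ})

end Pool.Agent.H687R3.AL
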