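import Mathlib

/-!
# Involutory quandles with unique fixed points, of odd prime power order

`E : Q → Perm Q` with `E x` an involution with unique fixed point `x` and
`E x * E y * E x = E (E x y)`.  If `|Q| = p ^ k` then the group generated by the products
`E x * E y` is a `p`-group (Glauberman's theorem for Bruck loops of odd prime power order),
with an elementary proof.
-/

namespace Pool.Agent.H687R3.AL

open Subgroup

variable {Q : Type*}

/-- Involutory quandle structure with unique fixed points. -/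
structure Core (E : Q → Equiv.Perm Q) : Prop where
  sq : ∀ x, E x * E x = 1
  fix : ∀ x y, E x y = y ↔ y = x
  conj : ∀ x y, E x * E y * E x = E (E x y)

namespace Core

variable {E : Q → Equiv.Perm Q} (h : Core E)
include h

theorem inv_eq (x : Q) : (E x)⁻¹ = E x := inv_eq_of_mul_eq_one_left (h.sq x)

theorem self (x : Q) : E x x = x := (h.fix x x).2 rfl

theorem inj {x y : Q} (e : E x = E y) : x = y := by
  have := h.self x
  rw [e] at this
  exact (h.fix y x).1 this

theorem dih (x y : Q) : E y * (E x * E y)⁻¹ = E x := by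
  rw [mul_inv_rev, h.inv_eq, h.inv_eq, ← mul_assoc, h.sq, one_mul]

theorem conj_mem (x y z : Q) : (E x * E y) * E z * (E x * E y)⁻¹ = E ((E x * E y) z) := by
  rw [mul_inv_rev, h.inv_eq, h.inv_eq]
  calc (E x * E y) * E z * (E y * E x) = E x * (E y * E z * E y) * E x := by group
    _ = _ := by rw [h.conj, h.conj]; rfl

/-- All reflections of the dihedral group are in the image of `E`. -/
theorem pow_mul (x y : Q) (n : ℕ) : ∃ z, (E x * E y) ^ n * E y = E z := by
  induction n using Nat.twoStepInduction with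
  | zero => exact ⟨y, by simp⟩
  | one => exact ⟨x, by rw [pow_one, mul_assoc, h.sq, mul_one]⟩
  | more n ih _ =>
    obtain ⟨z, hz⟩ := ih
    refine ⟨(E x * E y) z, ?_⟩
    rw [← h.conj_mem, ← hz]
    have h1 : E y * (E x * E y)⁻¹ = (E x * E y) * E y := by
      rw [h.dih, mul_assoc, h.sq, mul_one]
    calc (E x * E y) ^ (n + 2) * E y = (E x * E y) * (E x * E y) ^ n * ((E x * E y) * E y) := by
          rw [show n + 2 = 1 + n + 1 by ring, pow_succ, pow_add, pow_one]; group
      _ = (E x * E y) * ((E x * E y) ^ n * (E y * (E x * E y)⁻¹)) := by rw [h1]; group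
      _ = _ := by group

theorem pow_eq (x y : Q) (n : ℕ) : ∃ z, (E x * E y) ^ n = E z * E y := by
  obtain ⟨z, hz⟩ := h.pow_mul x y n
  exact ⟨z, by rw [← hz, mul_assoc, h.sq, mul_one]⟩

theorem sq_eq_one (x y : Q) (hs : (E x * E y) * (E x * E y) = 1) : E x * E y = 1 := by
  have h1 : E x * E y * E x = E y := by
    have : E x * E y * E x * E y = 1 := by rw [← hs]; group
    rw [mul_eq_one_iff_eq_inv] at this
    rw [this, h.inv_eq]
  rw [h.conj] at h1
  have h2 := h.inj h1
  have h3 := (h.fix x y).1 h2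
  rw [h3, h.sq]

theorem odd_order [Finite Q] (x y : Q) : Odd (orderOf (E x * E y)) := by
  by_contra hne
  rw [Nat.not_odd_iff_even] at hne
  obtain ⟨r, hr⟩ := hne
  have hpos : 0 < orderOf (E x * E y) := orderOf_pos _
  obtain ⟨z, hz⟩ := h.pow_eq x y r
  have h1 : (E z * E y) * (E z * E y) = 1 := by
    rw [← hz, ← pow_add, ← hr, pow_orderOf_eq_one]
  have h2 := h.sq_eq_one z y h1
  rw [← hz] at h2
  have := Nat.le_of_dvd (by omega) (orderOf_dvd_of_pow_eq_one h2)
  omega

theorem semiregular [Finite Q] (x y z : Q) (hz : (E x * E y) z = z) : E x * E y = 1 := by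
  set c := E x * E y with hc
  have h1 : c * E z * c⁻¹ = E z := by rw [hc, h.conj_mem, ← hc, hz]
  have h2 : E x * c * E x = c⁻¹ := by
    rw [hc, mul_inv_rev, h.inv_eq, h.inv_eq, ← mul_assoc, h.sq, one_mul]
  have h3 : E z * c⁻¹ * E z = c⁻¹ := by
    have : E z * c = c * E z := by
      calc E z * c = (c * E z * c⁻¹) * c := by rw [h1]
        _ = _ := by group
    have h4 : E z * c⁻¹ = c⁻¹ * E z := by
      calc E z * c⁻¹ = c⁻¹ * (c * E z) * c⁻¹ := by group
        _ = c⁻¹ * (E z * c) * c⁻¹ := by rw [this]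
        _ = _ := by group
    rw [h4, mul_assoc, h.sq, mul_one]
  set r := E z * E x with hr
  have hri : r⁻¹ = E x * E z := by rw [hr, mul_inv_rev, h.inv_eq, h.inv_eq]
  have h5 : r * c * r⁻¹ = c⁻¹ := by
    rw [hri, hr]
    calc E z * E x * c * (E x * E z) = E z * (E x * c * E x) * E z := by group
      _ = _ := by rw [h2, h3]
  have h6 : r * c⁻¹ * r⁻¹ = c := by
    calc r * c⁻¹ * r⁻¹ = (r * c * r⁻¹)⁻¹ := by group
      _ = c := by rw [h5, inv_inv]
  have h7 : ∀ n : ℕ, r ^ (2 * n + 1) * c * (r ^ (2 * n + 1))⁻¹ = c⁻¹ := by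
    intro n
    induction n with
    | zero => simpa using h5
    | succ n ih =>
      calc r ^ (2 * (n + 1) + 1) * c * (r ^ (2 * (n + 1) + 1))⁻¹
          = r * (r * (r ^ (2 * n + 1) * c * (r ^ (2 * n + 1))⁻¹) * r⁻¹) * r⁻¹ := by
            rw [show 2 * (n + 1) + 1 = 1 + (1 + (2 * n + 1)) by ring, pow_add r 1, pow_add r 1]
            simp only [pow_one]; group
        _ = r * (r * c⁻¹ * r⁻¹) * r⁻¹ := by rw [ih]
        _ = _ := by rw [h6, h5]
  obtain ⟨m, hm⟩ := h.odd_order z x
  have h8 := h7 m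
  rw [← hm, ← hr, pow_orderOf_eq_one] at h8
  apply h.sq_eq_one
  rw [← hc]
  simp only [one_mul, inv_one, mul_one] at h8
  nth_rewrite 1 [h8]
  simp

theorem order_dvd [Finite Q] {p k : ℕ} [hp : Fact p.Prime] (hcard : Nat.card Q = p ^ k)
    (x y : Q) : ∃ n, (E x * E y) ^ p ^ n = 1 := by
  classical
  cases nonempty_fintype Q
  have hpos : orderOf (E x * E y) ≠ 0 := (orderOf_pos _).ne'
  have h1 : ∀ {d : ℕ}, d.Prime → d ∣ orderOf (E x * E y) → d = p := by
    intro d hd hdv
    have : Fact d.Prime := ⟨hd⟩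
    obtain ⟨m, hm⟩ := hdv
    have hm0 : m ≠ 0 := by
      rintro rfl
      exact hpos (by rw [hm, Nat.mul_zero])
    obtain ⟨z, hz⟩ := h.pow_eq x y m
    have h2 : (E z * E y) ^ d ^ 1 = 1 := by
      rw [pow_one, ← hz, ← _root_.pow_mul, mul_comm m d, ← hm, pow_orderOf_eq_one]
    have h3 : d ∣ Fintype.card Q := by
      by_contra hnd
      obtain ⟨a, ha⟩ := Equiv.Perm.exists_fixed_point_of_prime hnd h2
      have h4 := h.semiregular z y a ha
      rw [← hz] at h4
      have h5 := Nat.le_of_dvd (Nat.pos_of_ne_zero hm0) (orderOf_dvd_of_pow_eq_one h4)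
      have := hd.two_le
      rw [hm] at h5
      nlinarith [Nat.pos_of_ne_zero hm0]
    rw [← Nat.card_eq_fintype_card, hcard] at h3
    exact (Nat.prime_dvd_prime_iff_eq hd hp.out).1 (hd.dvd_of_dvd_pow h3)
  have h2 := Nat.eq_prime_pow_of_unique_prime_dvd hpos h1
  exact ⟨_, by rw [← h2, pow_orderOf_eq_one]⟩

/-- transitivity: some power of `E z * E y` maps `y` to `z`. -/
theorem trans [Finite Q] (y z : Q) : ∃ n : ℕ, ((E z * E y) ^ n) y = z := by
  obtain ⟨m, hm⟩ := h.odd_order z y
  set c := E z * E y with hc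
  refine ⟨m + 1, ?_⟩
  have hcc : c ^ (2 * m + 1) = 1 := by rw [← hm, pow_orderOf_eq_one]
  have h1 : ∀ n : ℕ, c ^ n * E y * (c ^ n)⁻¹ = E ((c ^ n) y) := by
    intro n
    induction n with
    | zero => simp
    | succ n ih =>
      calc c ^ (n + 1) * E y * (c ^ (n + 1))⁻¹ = c * (c ^ n * E y * (c ^ n)⁻¹) * c⁻¹ := by
            rw [show n + 1 = 1 + n by ring, pow_add, pow_one]; group
        _ = E (c ((c ^ n) y)) := by rw [ih, hc, h.conj_mem]
        _ = _ := by rw [show n + 1 = 1 + n by ring, pow_add, pow_one]; rfl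
  have h2 : ∀ n : ℕ, E y * (c ^ n)⁻¹ = c ^ n * E y := by
    intro n
    induction n with
    | zero => simp
    | succ n ih =>
      have h3 : E y * c⁻¹ = c * E y := by
        rw [hc, h.dih, mul_assoc, h.sq, mul_one]
      calc E y * (c ^ (n + 1))⁻¹ = (E y * (c ^ n)⁻¹) * c⁻¹ := by
            rw [show n + 1 = 1 + n by ring, pow_add, pow_one]; group
        _ = c ^ n * (E y * c⁻¹) := by rw [ih]; group
        _ = c ^ (n + 1) * E y := by rw [h3, pow_succ]; group
  have h3 := h1 (m + 1)
  rw [mul_assoc, h2, ← mul_assoc, ← pow_add, show m + 1 + (m + 1) = (2 * m + 1) + 1 by ring,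
    pow_succ, hcc, one_mul, hc, mul_assoc, h.sq, mul_one] at h3
  exact (h.inj h3).symm

end Core

end Pool.Agent.H687R3.AL
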