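import Mathlib
import Pool.Agent.H687R3.AL.PGroup

namespace Pool.Agent.H687R3.AL

open Subgroup MulAction

/-- An element `τ` of order two such that all products `τ τ^g` are `p`-elements normalises
a Sylow `p`-subgroup. -/
theorem exists_sylow {G : Type*} [Group G] [Finite G] {p : ℕ} [Fact p.Prime] (τ : G)
    (hτ : τ * τ = 1) (hp : ∀ g : G, ∃ n, (τ * (g * τ * g⁻¹)) ^ p ^ n = 1) :
    ∃ R : Sylow p G, ∀ r ∈ R, τ * r * τ ∈ R := by
  classical
  have hτi : τ⁻¹ = τ := inv_eq_of_mul_eq_one_left hτ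
  let S : Set (Subgroup G) := {R | IsPGroup p R ∧ ∀ r ∈ R, τ * r * τ ∈ R}
  have hS : S.Nonempty := ⟨⊥, IsPGroup.of_bot, by
    intro r hr
    rw [Subgroup.mem_bot] at hr ⊢
    rw [hr, mul_one, hτ]⟩
  obtain ⟨R, hRm⟩ := (Set.toFinite S).exists_maximal hS
  obtain ⟨hRp, hRτ⟩ := hRm.prop
  have hmax : ∀ T : Subgroup G, T ∈ S → R ≤ T → T ≤ R := fun T hT h => hRm.le_of_ge hT h
  have hτN : τ ∈ normalizer (R : Set G) := by
    rw [mem_normalizer_iff]
    intro g
    rw [hτi]
    constructor
    · exact fun hg => hRτ g hg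
    · intro hg
      have := hRτ _ hg
      have e : τ * (τ * g * τ) * τ = g := by
        calc τ * (τ * g * τ) * τ = (τ * τ) * g * (τ * τ) := by group
          _ = g := by rw [hτ]; group
      rwa [e] at this
  have hu : ∀ n ∈ normalizer (R : Set G), τ * (n * τ * n⁻¹) ∈ R := by
    intro n hn
    set u := τ * (n * τ * n⁻¹) with hudef
    have huN : u ∈ normalizer (R : Set G) :=
      mul_mem hτN (mul_mem (mul_mem hn hτN) (inv_mem hn))
    have huτ : τ * u * τ = u⁻¹ := by
      rw [hudef]
      calc τ * (τ * (n * τ * n⁻¹)) * τ = (τ * τ) * (n * τ * n⁻¹) * τ := by group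
        _ = n * τ * n⁻¹ * τ := by rw [hτ]; group
        _ = n * τ⁻¹ * n⁻¹ * τ⁻¹ := by rw [hτi]
        _ = _ := by group
    have hup : IsPGroup p (zpowers u) := by
      obtain ⟨m, hm⟩ := hp n
      rw [← hudef] at hm
      intro x
      obtain ⟨x, hx⟩ := x
      rw [mem_zpowers_iff] at hx
      obtain ⟨i, rfl⟩ := hx
      refine ⟨m, ?_⟩
      ext
      simp only [SubgroupClass.coe_pow, OneMemClass.coe_one]
      rw [← zpow_natCast, ← zpow_mul, mul_comm, zpow_mul, zpow_natCast, hm, one_zpow]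
    have hT : (R ⊔ zpowers u) ∈ S := by
      refine ⟨IsPGroup.to_sup_of_normal_left' hRp hup ?_, ?_⟩
      · rw [zpowers_le]; exact huN
      · intro r hr
        have h1 : R ⊔ zpowers u ≤ (R ⊔ zpowers u).comap (MulAut.conj τ).toMonoidHom := by
          rw [sup_le_iff]
          constructor
          · intro r hr
            rw [mem_comap]
            refine mem_sup_left ?_
            simp only [MulEquiv.toMonoidHom_eq_coe, MonoidHom.coe_coe, MulAut.conj_apply, hτi]
            exact hRτ r hr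
          · rw [zpowers_le, mem_comap]
            refine mem_sup_right ?_
            simp only [MulEquiv.toMonoidHom_eq_coe, MonoidHom.coe_coe, MulAut.conj_apply, hτi]
            rw [huτ]
            exact inv_mem (mem_zpowers u)
        have h2 := h1 hr
        rw [mem_comap] at h2
        simpa only [MulEquiv.toMonoidHom_eq_coe, MonoidHom.coe_coe, MulAut.conj_apply, hτi]
          using h2
    exact hmax _ hT le_sup_left (mem_sup_right (mem_zpowers u))
  obtain ⟨P, hP⟩ := hRp.exists_le_sylow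
  by_cases hne : R = P
  · exact ⟨P, by
      intro r hr
      have hr' : r ∈ R := by rw [hne]; exact hr
      have := hRτ r hr'
      rw [hne] at this
      exact this⟩
  · exfalso
    have hlt : R < (P : Subgroup G) := lt_of_le_of_ne hP hne
    -- normalizer growth in the `p`-group `P`
    obtain ⟨s, hsP, hsR, hsN⟩ : ∃ s ∈ (P : Subgroup G), s ∉ R ∧ s ∈ normalizer (R : Set G) := by
      have hnil : Group.IsNilpotent (P : Subgroup G) := P.2.isNilpotent
      have hlt2 : R.subgroupOf P < ⊤ := by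
        rw [lt_top_iff_ne_top]
        intro h
        rw [subgroupOf_eq_top] at h
        exact hne (le_antisymm hP h)
      have hgrow := (Group.normalizerCondition_of_isNilpotent (G := (P : Subgroup G)))
        (R.subgroupOf P) hlt2
      obtain ⟨s, hs1, hs2⟩ := SetLike.exists_of_lt hgrow
      refine ⟨s.1, s.2, fun h => hs2 (mem_subgroupOf.2 h), ?_⟩
      rw [mem_normalizer_iff] at hs1 ⊢
      intro g
      constructor
      · intro hg
        have := (hs1 ⟨g, hP hg⟩).1 (mem_subgroupOf.2 hg)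
        exact mem_subgroupOf.1 this
      · intro hg
        have hgP : g ∈ (P : Subgroup G) := by
          have h1 := hP hg
          have h2 := mul_mem (mul_mem (inv_mem s.2) h1) s.2
          have e : (s : G)⁻¹ * (s * g * (s : G)⁻¹) * s = g := by group
          rwa [e] at h2
        have := (hs1 ⟨g, hgP⟩).2 (mem_subgroupOf.2 hg)
        exact mem_subgroupOf.1 this
    have hT : (R ⊔ zpowers s) ∈ S := by
      have hle : R ⊔ zpowers s ≤ (P : Subgroup G) := sup_le hP (by rw [zpowers_le]; exact hsP)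
      have hleN : R ⊔ zpowers s ≤ normalizer (R : Set G) :=
        sup_le le_normalizer (by rw [zpowers_le]; exact hsN)
      refine ⟨P.2.to_le hle, ?_⟩
      intro t ht
      have h1 := hu t (hleN ht)
      have h2 : τ * t * τ = (τ * (t * τ * t⁻¹)) * t := by group
      rw [h2]
      exact mul_mem (mem_sup_left h1) ht
    exact hsR (hmax _ hT le_sup_left (mem_sup_right (mem_zpowers s)))

/-- A Sylow `p`-subgroup of a finite transitive group of prime power degree is transitive. -/
theorem sylow_trans {G Q : Type*} [Group G] [Finite G] [Finite Q] [MulAction G Q]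
    [IsPretransitive G Q] {p k : ℕ} [hp : Fact p.Prime] (hcard : Nat.card Q = p ^ k)
    (R : Sylow p G) (x y : Q) : ∃ r ∈ R, r • x = y := by
  have h1 : (stabilizer G x).index = p ^ k := by
    rw [index_stabilizer, orbit_eq_univ, Set.ncard_univ, hcard]
  have h2 : (stabilizer G x ⊓ R : Subgroup G).index =
      (stabilizer G x).relIndex R * (R : Subgroup G).index := by
    rw [← inf_relIndex_right, relIndex_mul_index inf_le_right]
  have h3 : (stabilizer G x ⊓ R : Subgroup G).index =
      (R : Subgroup G).relIndex (stabilizer G x) * p ^ k := by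
    rw [← h1, ← relIndex_mul_index (inf_le_left : stabilizer G x ⊓ R ≤ stabilizer G x),
      inf_comm, inf_relIndex_right]
  have h4 : p ^ k ∣ (stabilizer G x).relIndex R := by
    have h5 : p ^ k ∣ (stabilizer G x).relIndex R * (R : Subgroup G).index := by
      rw [← h2, h3]; exact Dvd.intro_left _ rfl
    refine Nat.Coprime.dvd_of_dvd_mul_right ?_ h5
    exact Nat.Coprime.pow_left _ ((Nat.Prime.coprime_iff_not_dvd hp.out).2 R.not_dvd_index)
  have h6 : (stabilizer G x).relIndex R = (orbit R x).ncard := by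
    rw [← index_stabilizer]
    rfl
  have h7 : (orbit R x).ncard ≤ p ^ k := by
    rw [← hcard, ← Set.ncard_univ]
    exact Set.ncard_le_ncard (Set.subset_univ _) (Set.toFinite _)
  have hpos : 0 < (orbit R x).ncard := by
    rw [Set.ncard_pos (Set.toFinite _)]
    exact nonempty_orbit x
  have h8 : (orbit R x).ncard = p ^ k := by
    rw [h6] at h4
    exact le_antisymm h7 (Nat.le_of_dvd hpos h4)
  have h9 : orbit R x = Set.univ :=
    Set.eq_of_subset_of_ncard_le (Set.subset_univ _) (by rw [Set.ncard_univ, hcard, h8])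
  have h10 : y ∈ orbit R x := by rw [h9]; trivial
  obtain ⟨r, hr⟩ := h10
  exact ⟨r.1, r.2, hr⟩

variable {Q : Type*}

/-- The automorphism group of the quandle. -/
def aut (E : Q → Equiv.Perm Q) : Subgroup (Equiv.Perm Q) where
  carrier := {g | ∀ x, g * E x * g⁻¹ = E (g x)}
  mul_mem' := by
    intro a b ha hb x
    calc a * b * E x * (a * b)⁻¹ = a * (b * E x * b⁻¹) * a⁻¹ := by group
      _ = _ := by rw [hb, ha]; rfl
  one_mem' := by intro x; simp
  inv_mem' := by
    intro a ha x
    have h1 : a * E (a⁻¹ x) * a⁻¹ = E (a (a⁻¹ x)) := ha (a⁻¹ x)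
    have h2 : a (a⁻¹ x) = x := by simp
    rw [h2] at h1
    rw [← h1]; group

/-- The group generated by the products `E x * E y`. -/
def Gam (E : Q → Equiv.Perm Q) : Subgroup (Equiv.Perm Q) :=
  closure {g | ∃ x y, g = E x * E y}

theorem Core.mem_aut {E : Q → Equiv.Perm Q} (h : Core E) (x : Q) : E x ∈ aut E := by
  intro y
  rw [h.inv_eq, h.conj]

theorem Core.gam_le_aut {E : Q → Equiv.Perm Q} (h : Core E) : Gam E ≤ aut E := by
  rw [Gam, closure_le]
  rintro _ ⟨x, y, rfl⟩
  exact mul_mem (h.mem_aut x) (h.mem_aut y)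

/-- **Glauberman's theorem** in the prime power case. -/
theorem Core.isPGroup [Finite Q] [Nonempty Q] {E : Q → Equiv.Perm Q} (h : Core E) {p k : ℕ}
    [hp : Fact p.Prime] (hcard : Nat.card Q = p ^ k) : IsPGroup p (Gam E) := by
  classical
  obtain ⟨x0⟩ := (inferInstance : Nonempty Q)
  let τ : aut E := ⟨E x0, h.mem_aut x0⟩
  have hτ : τ * τ = 1 := Subtype.ext (h.sq x0)
  have hpp : ∀ g : aut E, ∃ n, (τ * (g * τ * g⁻¹)) ^ p ^ n = 1 := by
    intro g
    obtain ⟨n, hn⟩ := h.order_dvd hcard x0 (g.1 x0)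
    refine ⟨n, Subtype.ext ?_⟩
    have : (g.1 * E x0 * (g.1)⁻¹) = E (g.1 x0) := g.2 x0
    change (E x0 * (g.1 * E x0 * (g.1)⁻¹)) ^ p ^ n = 1
    rw [this, hn]
  obtain ⟨R, hR⟩ := exists_sylow τ hτ hpp
  have htr : IsPretransitive (aut E) Q := by
    refine ⟨fun y z => ?_⟩
    obtain ⟨n, hn⟩ := h.trans y z
    refine ⟨⟨(E z * E y) ^ n, pow_mem (mul_mem (h.mem_aut z) (h.mem_aut y)) n⟩, ?_⟩
    exact hn
  have hmem : ∀ y, ∃ r ∈ R, (E y : Equiv.Perm Q) = (r : aut E).1 * E x0 := by
    intro y
    obtain ⟨r, hr, hry⟩ := sylow_trans hcard R x0 y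
    have h1 : r.1 * E x0 * (r.1)⁻¹ = E y := by
      rw [r.2 x0]
      congr 1
    refine ⟨r * (τ * r⁻¹ * τ), mul_mem hr (hR _ (inv_mem hr)), ?_⟩
    rw [← h1]
    change _ = (r.1 * (E x0 * (r.1)⁻¹ * E x0)) * E x0
    calc r.1 * E x0 * (r.1)⁻¹ = r.1 * E x0 * (r.1)⁻¹ * 1 := by group
      _ = r.1 * E x0 * (r.1)⁻¹ * (E x0 * E x0) := by rw [h.sq]
      _ = _ := by group
  have hle : Gam E ≤ (R : Subgroup (aut E)).map (aut E).subtype := by
    rw [Gam, closure_le]
    rintro _ ⟨x, y, rfl⟩
    obtain ⟨r, hr, hrx⟩ := hmem x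
    obtain ⟨s, hs, hsy⟩ := hmem y
    refine ⟨r * (τ * s * τ), mul_mem hr (hR _ hs), ?_⟩
    rw [hrx, hsy]
    change r.1 * (E x0 * s.1 * E x0) = _
    group
  exact (R.2.map _).to_le hle

end Pool.Agent.H687R3.AL
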