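import Mathlib
import Pool.Agent.H687R3.AL.Stmts
import Pool.Agent.H687R3.AL.Sylow

set_option autoImplicit false
set_option linter.dupNamespace false

namespace Pool.Agent.H687R3.AL

open Subgroup MulAction

variable {Q : Type} (A : AL Q)

namespace AL

/-- left translation -/
noncomputable def L (x : Q) : Equiv.Perm Q := Equiv.ofBijective _ (A.bijL x)
/-- right translation -/
noncomputable def R (x : Q) : Equiv.Perm Q := Equiv.ofBijective _ (A.bijR x)

@[simp] theorem L_apply (x y : Q) : A.L x y = A.op x y := rfl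
@[simp] theorem R_apply (x y : Q) : A.R x y = A.op y x := rfl

theorem L_e : A.L A.e = 1 := by ext y; simp [A.idl]

/-- automorphisms -/
def Aut : Subgroup (Equiv.Perm Q) where
  carrier := {g | ∀ a b, g (A.op a b) = A.op (g a) (g b)}
  mul_mem' := by
    intro a b ha hb x y
    change a (b _) = _
    rw [hb, ha]; rfl
  one_mem' := by intro x y; rfl
  inv_mem' := by
    intro a ha x y
    apply a.injective
    rw [ha]
    simp

variable {A}

theorem aut_apply {g : Equiv.Perm Q} (h : g ∈ A.Aut) (a b : Q) :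
    g (A.op a b) = A.op (g a) (g b) := h a b

theorem aut_e {g : Equiv.Perm Q} (h : g ∈ A.Aut) : g A.e = A.e := by
  have h1 : A.op (g A.e) (g A.e) = A.op (g A.e) A.e := by
    rw [← aut_apply h, A.idl, A.idr]
  exact (A.bijL _).1 h1

theorem aut_L {g : Equiv.Perm Q} (h : g ∈ A.Aut) (x : Q) : g * A.L x = A.L (g x) * g := by
  ext y
  exact aut_apply h x y

theorem aut_R {g : Equiv.Perm Q} (h : g ∈ A.Aut) (x : Q) : g * A.R x = A.R (g x) * g := by
  ext y
  exact aut_apply h y x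

theorem theta_mem (x y : Q) : (A.L (A.op x y))⁻¹ * A.L x * A.L y ∈ A.Aut := by
  intro a b
  set θ := (A.L (A.op x y))⁻¹ * A.L x * A.L y with hθ
  have h1 : ∀ z, A.op (A.op x y) (θ z) = A.op x (A.op y z) := by
    intro z
    have : A.L (A.op x y) * θ = A.L x * A.L y := by rw [hθ]; group
    exact congrArg (fun g : Equiv.Perm Q => g z) this
  have h2 := A.autL y x a b (θ a) (θ b) (h1 a) (h1 b)
  rw [← h1] at h2
  exact ((A.bijL _).1 h2).symm

theorem rho_mem (x y : Q) : (A.R (A.op x y))⁻¹ * A.R y * A.R x ∈ A.Aut := by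
  intro a b
  set θ := (A.R (A.op x y))⁻¹ * A.R y * A.R x with hθ
  have h1 : ∀ z, A.op (θ z) (A.op x y) = A.op (A.op z x) y := by
    intro z
    have : A.R (A.op x y) * θ = A.R y * A.R x := by rw [hθ]; group
    exact congrArg (fun g : Equiv.Perm Q => g z) this
  have h2 := A.autR x y a b (θ a) (θ b) (h1 a) (h1 b)
  rw [← h1] at h2
  exact ((A.bijR _).1 h2).symm

theorem tau_mem (x : Q) : (A.R x)⁻¹ * A.L x ∈ A.Aut := by
  intro a b
  set θ := (A.R x)⁻¹ * A.L x with hθ
  have h1 : ∀ z, A.op (θ z) x = A.op x z := by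
    intro z
    have : A.R x * θ = A.L x := by rw [hθ]; group
    exact congrArg (fun g : Equiv.Perm Q => g z) this
  have h2 := A.autT x a b (θ a) (θ b) (h1 a) (h1 b)
  rw [← h1] at h2
  exact ((A.bijR _).1 h2).symm

theorem sigma_mem (x y : Q) : (A.L (A.op x y))⁻¹ * A.R y * A.L x ∈ A.Aut := by
  have h := mul_mem (mul_mem (inv_mem (tau_mem (A := A) (A.op x y))) (rho_mem (A := A) x y))
    (tau_mem (A := A) x)
  have e : ((A.R (A.op x y))⁻¹ * A.L (A.op x y))⁻¹ * ((A.R (A.op x y))⁻¹ * A.R y * A.R x) *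
      ((A.R x)⁻¹ * A.L x) = (A.L (A.op x y))⁻¹ * A.R y * A.L x := by group
  rwa [e] at h

theorem flex (x : Q) : A.L x * A.R x = A.R x * A.L x := by
  have hT := tau_mem (A := A) x
  have hx : ((A.R x)⁻¹ * A.L x) x = x := by
    change (A.R x)⁻¹ (A.op x x) = x
    rw [Equiv.Perm.inv_eq_iff_eq]; rfl
  have h := aut_L hT x
  rw [hx] at h
  have h2 : (A.R x)⁻¹ * A.L x = A.L x * (A.R x)⁻¹ := by
    have : (A.R x)⁻¹ * A.L x * A.L x = A.L x * (A.R x)⁻¹ * A.L x := by rw [h]; group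
    exact mul_right_cancel this
  calc A.L x * A.R x = A.R x * ((A.R x)⁻¹ * A.L x) * A.R x := by group
    _ = _ := by rw [h2]; group

variable (A) in
/-- inverse -/
noncomputable def inv (x : Q) : Q := (A.L x)⁻¹ A.e

theorem op_inv (x : Q) : A.op x (A.inv x) = A.e := by
  change A.L x ((A.L x)⁻¹ A.e) = A.e
  simp

theorem inv_op (x : Q) : A.op (A.inv x) x = A.e := by
  have h : (A.L x * A.R x) (A.inv x) = (A.R x * A.L x) (A.inv x) := by rw [flex]
  have h2 : A.op x (A.op (A.inv x) x) = A.op (A.op x (A.inv x)) x := h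
  rw [op_inv, A.idl] at h2
  exact (A.bijL x).1 (by simpa [A.idr] using h2)

theorem eq_inv {x y : Q} (h : A.op x y = A.e) : y = A.inv x :=
  (A.bijL x).1 (by simpa using h.trans (op_inv x).symm)

theorem inv_inv' (x : Q) : A.inv (A.inv x) = x := (eq_inv (inv_op x)).symm

variable (A) in
/-- the inversion permutation -/
noncomputable def J : Equiv.Perm Q := ⟨A.inv, A.inv, inv_inv', inv_inv'⟩

@[simp] theorem J_apply (x : Q) : A.J x = A.inv x := rfl

theorem J_sq : A.J * A.J = 1 := by ext x; exact inv_inv' x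

theorem J_inv : (A.J)⁻¹ = A.J := inv_eq_of_mul_eq_one_left J_sq

theorem aut_inv {g : Equiv.Perm Q} (h : g ∈ A.Aut) (x : Q) : g (A.inv x) = A.inv (g x) := by
  apply eq_inv
  rw [← aut_apply h, op_inv, aut_e h]

theorem aut_J {g : Equiv.Perm Q} (h : g ∈ A.Aut) : g * A.J = A.J * g := by
  ext x; exact aut_inv h x

theorem theta_fix (x y : Q) : ((A.L (A.op x y))⁻¹ * A.L x * A.L y) x = x := by
  change (A.L (A.op x y))⁻¹ (A.op x (A.op y x)) = x
  rw [Equiv.Perm.inv_eq_iff_eq]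
  have h : (A.L x * A.R x) y = (A.R x * A.L x) y := by rw [flex]
  exact h

/-- The antiautomorphic inverse property. -/
theorem aaip (u w : Q) : A.inv (A.op u w) = A.op (A.inv w) (A.inv u) := by
  set x := A.op u w with hx
  obtain ⟨y, hy⟩ := (A.bijL x).2 u
  have hy' : A.op x y = u := hy
  set θ := (A.L (A.op x y))⁻¹ * A.L x * A.L y with hθ
  have hθm : θ ∈ A.Aut := theta_mem x y
  have hθx : θ x = x := theta_fix x y
  have h1 : ∀ z, A.op u (θ z) = A.op x (A.op y z) := by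
    intro z
    have : A.L (A.op x y) * θ = A.L x * A.L y := by rw [hθ]; group
    have h := congrArg (fun g : Equiv.Perm Q => g z) this
    rw [hy'] at h
    exact h
  have h2 : A.op x (A.op y (θ⁻¹ (A.inv u))) = A.e := by
    rw [← h1]
    have : θ (θ⁻¹ (A.inv u)) = A.inv u := by simp
    rw [this, op_inv]
  have h3 := eq_inv h2
  have h4 : A.op (θ y) (A.inv u) = A.inv x := by
    have h5 := congrArg θ h3
    rw [aut_apply hθm, aut_inv hθm, hθx] at h5
    simpa using h5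
  have h6 : θ (A.inv y) = w := by
    apply (A.bijL u).1
    change A.op u (θ (A.inv y)) = A.op u w
    rw [h1, op_inv, A.idr, ← hx]
  have h7 : θ y = A.inv w := by
    rw [← h6, aut_inv hθm, inv_inv']
  rw [← h4, h7]

theorem J_L_J (x : Q) : A.J * A.L x * A.J = A.R (A.inv x) := by
  ext z
  change A.inv (A.op x (A.inv z)) = A.op z (A.inv x)
  rw [aaip, inv_inv']

theorem J_R_J (x : Q) : A.J * A.R x * A.J = A.L (A.inv x) := by
  ext z
  change A.inv (A.op (A.inv z) x) = A.op (A.inv x) z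
  rw [aaip, inv_inv']

theorem chi_mem (x : Q) : A.R x * A.L (A.inv x) ∈ A.Aut := by
  have h := sigma_mem (A := A) (A.inv x) x
  rw [inv_op, L_e] at h
  simpa using h

/-- `R x` commutes with `L (x⁻¹)`. -/
theorem R_comm (x : Q) : A.R x * A.L (A.inv x) = A.L (A.inv x) * A.R x := by
  have hm := chi_mem (A := A) x
  have hx : (A.R x * A.L (A.inv x)) x = x := by
    change A.op (A.op (A.inv x) x) x = x
    rw [inv_op, A.idl]
  have h := aut_R hm x
  rw [hx] at h
  have : A.R x * (A.L (A.inv x) * A.R x) = A.R x * (A.R x * A.L (A.inv x)) := by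
    rw [← mul_assoc, h]
  exact (mul_left_cancel this).symm

variable (A) in
/-- the core involutions -/
noncomputable def E (x : Q) : Equiv.Perm Q := A.L x * A.J * (A.L x)⁻¹

theorem E_e : A.E A.e = A.J := by rw [E, L_e]; simp

theorem L_mem_aut (y : Q) : A.L y ∈ aut A.E := by
  intro x
  have hm := theta_mem (A := A) y x
  set h := (A.L (A.op y x))⁻¹ * A.L y * A.L x with hh
  have h1 : A.L y * A.L x = A.L (A.op y x) * h := by rw [hh]; group
  have hJ := aut_J hm
  calc A.L y * A.E x * (A.L y)⁻¹ = (A.L y * A.L x) * A.J * (A.L y * A.L x)⁻¹ := by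
        rw [E]; group
    _ = A.L (A.op y x) * (h * A.J) * h⁻¹ * (A.L (A.op y x))⁻¹ := by rw [h1]; group
    _ = _ := by rw [hJ, E]; change _ = A.L (A.op y x) * A.J * (A.L (A.op y x))⁻¹; group

theorem R_mem_aut (y : Q) : A.R y ∈ aut A.E := by
  intro x
  have hm := sigma_mem (A := A) x y
  set h := (A.L (A.op x y))⁻¹ * A.R y * A.L x with hh
  have h1 : A.R y * A.L x = A.L (A.op x y) * h := by rw [hh]; group
  have hJ := aut_J hm
  calc A.R y * A.E x * (A.R y)⁻¹ = (A.R y * A.L x) * A.J * (A.R y * A.L x)⁻¹ := by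
        rw [E]; group
    _ = A.L (A.op x y) * (h * A.J) * h⁻¹ * (A.L (A.op x y))⁻¹ := by rw [h1]; group
    _ = _ := by rw [hJ, E]; change _ = A.L (A.op x y) * A.J * (A.L (A.op x y))⁻¹; group

theorem J_mem_aut : A.J ∈ aut A.E := by
  intro x
  rw [J_inv]
  have h1 : A.J * A.E x * A.J = A.R (A.inv x) * A.J * (A.R (A.inv x))⁻¹ := by
    rw [← J_L_J]
    have e : (A.J * A.L x * A.J)⁻¹ = A.J * (A.L x)⁻¹ * A.J := by
      rw [mul_inv_rev, mul_inv_rev, J_inv]; group
    rw [e, E]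
    calc A.J * (A.L x * A.J * (A.L x)⁻¹) * A.J
        = A.J * A.L x * 1 * A.J * 1 * (A.L x)⁻¹ * A.J := by group
      _ = A.J * A.L x * (A.J * A.J) * A.J * 1 * (A.L x)⁻¹ * A.J := by rw [J_sq]
      _ = A.J * A.L x * A.J * (A.J * A.J) * (A.L x)⁻¹ * A.J := by group
      _ = A.J * A.L x * A.J * (A.J * A.J * 1) * (A.L x)⁻¹ * A.J := by group
      _ = A.J * A.L x * A.J * A.J * (A.J * (A.L x)⁻¹ * A.J) := by group
  have h2 := R_mem_aut (A := A) (A.inv x) A.e
  rw [E_e] at h2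
  rw [h1, h2]
  change A.E (A.op A.e (A.inv x)) = A.E (A.inv x)
  rw [A.idl]

theorem E_mem_aut (x : Q) : A.E x ∈ aut A.E :=
  mul_mem (mul_mem (L_mem_aut x) J_mem_aut) (inv_mem (L_mem_aut x))

theorem E_sq (x : Q) : A.E x * A.E x = 1 := by
  rw [E]
  calc A.L x * A.J * (A.L x)⁻¹ * (A.L x * A.J * (A.L x)⁻¹)
      = A.L x * (A.J * A.J) * (A.L x)⁻¹ := by group
    _ = 1 := by rw [J_sq]; group

/-- `(E_y J)^n = E_{y^n} J`. -/
theorem pow_EJ (y : Q) (n : ℕ) : (A.E y * A.J) ^ n = A.E ((A.R y ^ n) A.e) * A.J := by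
  have h1 : ∀ g ∈ aut A.E, g * A.J * g⁻¹ = A.E (g A.e) := by
    intro g hg
    have := hg A.e
    rwa [E_e] at this
  have h2 : A.E y = A.R y * A.J * (A.R y)⁻¹ := by
    rw [h1 _ (R_mem_aut y)]
    change A.E y = A.E (A.op A.e y)
    rw [A.idl]
  have h3 : A.E y * A.J = A.R y * (A.L (A.inv y))⁻¹ := by
    rw [h2, ← J_R_J, mul_inv_rev, mul_inv_rev, J_inv]; group
  have h4 : A.E ((A.R y ^ n) A.e) * A.J = A.R y ^ n * ((A.L (A.inv y)) ^ n)⁻¹ := by
    rw [← h1 _ (pow_mem (R_mem_aut y) n), ← J_R_J]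
    have e : (A.J * A.R y * A.J) ^ n = A.J * A.R y ^ n * A.J := by
      have := conj_pow (i := n) (a := A.J) (b := A.R y)
      rw [J_inv] at this
      exact this
    rw [e, mul_inv_rev, mul_inv_rev, J_inv]; group
  rw [h3, h4]
  have hc : Commute (A.R y) ((A.L (A.inv y))⁻¹) := (show Commute (A.R y) (A.L (A.inv y)) from
    R_comm y).inv_right
  rw [hc.mul_pow, inv_pow]

/-- if `E` at the `m`-th power of `y` is `J` then the `2m`-th power of `y` is trivial. -/
theorem pow_of_E_eq (y : Q) (m : ℕ) (h : A.E ((A.R y ^ m) A.e) = A.J) :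
    (A.R y ^ (2 * m)) A.e = A.e := by
  have h0 : A.R y ^ m * A.J * (A.R y ^ m)⁻¹ = A.J := by
    have := pow_mem (R_mem_aut (A := A) y) m A.e
    rw [E_e] at this
    rw [this, h]
  have h1 : A.R y ^ m * A.J = A.J * A.R y ^ m := by
    calc A.R y ^ m * A.J = (A.R y ^ m * A.J * (A.R y ^ m)⁻¹) * A.R y ^ m := by group
      _ = _ := by rw [h0]
  have h2 : A.L (A.inv y) ^ m = A.R y ^ m := by
    rw [← J_R_J]
    have := conj_pow (i := m) (a := A.J) (b := A.R y)
    rw [J_inv] at this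
    rw [this, ← h1, mul_assoc, J_sq, mul_one]
  have hc : Commute (A.R y) (A.L (A.inv y)) := R_comm y
  have h3 : A.R y ^ (2 * m) = (A.R y * A.L (A.inv y)) ^ m := by
    rw [two_mul, pow_add]
    nth_rewrite 2 [← h2]
    rw [hc.mul_pow]
  rw [h3]
  exact aut_e (pow_mem (chi_mem y) m)

instance : IsPretransitive (aut A.E) Q := by
  refine ⟨fun y z => ?_⟩
  refine ⟨⟨A.L z * (A.L y)⁻¹, mul_mem (L_mem_aut z) (inv_mem (L_mem_aut y))⟩, ?_⟩
  change A.L z ((A.L y)⁻¹ y) = z
  have : (A.L y)⁻¹ y = A.e := by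
    rw [Equiv.Perm.inv_eq_iff_eq]; exact (A.idr y).symm
  rw [this]; exact A.idr z

/-- **First half**: in an automorphic loop of 2-power order all elements have 2-power order. -/
theorem order_of_card [Finite Q] {n : ℕ} (hcard : Nat.card Q = 2 ^ n) (y : Q) :
    ∃ k : ℕ, (A.R y ^ 2 ^ k) A.e = A.e := by
  classical
  let τ : aut A.E := ⟨A.J, J_mem_aut⟩
  have hτ : τ ^ 2 = 1 := by rw [pow_two]; exact Subtype.ext J_sq
  have hz : IsPGroup 2 (zpowers τ) := by
    intro x
    obtain ⟨x, hx⟩ := x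
    rw [mem_zpowers_iff] at hx
    obtain ⟨i, rfl⟩ := hx
    refine ⟨1, ?_⟩
    ext1
    simp only [SubgroupClass.coe_pow, OneMemClass.coe_one]
    rw [← zpow_natCast, ← zpow_mul, mul_comm, zpow_mul, zpow_natCast, pow_one, hτ, one_zpow]
  obtain ⟨S, hS⟩ := hz.exists_le_sylow
  have hτS : τ ∈ S := hS (mem_zpowers τ)
  obtain ⟨r, hr, hry⟩ := sylow_trans hcard S A.e y
  have hm : r * τ * r⁻¹ * τ ∈ S := mul_mem (mul_mem (mul_mem hr hτS) (inv_mem hr)) hτS
  obtain ⟨k, hk⟩ := S.2 ⟨_, hm⟩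
  refine ⟨k + 1, ?_⟩
  have h1 : (A.E y * A.J) ^ 2 ^ k = 1 := by
    have h2 : (r.1 * A.J * (r.1)⁻¹ * A.J) ^ 2 ^ k = 1 := by
      have := congrArg (fun t : S => ((t : aut A.E) : Equiv.Perm Q)) hk
      exact this
    have h3 : r.1 * A.J * (r.1)⁻¹ = A.E y := by
      have := r.2 A.e
      rw [E_e] at this
      rw [this]
      congr 1
    rwa [h3] at h2
  rw [pow_EJ] at h1
  have h4 : A.E ((A.R y ^ 2 ^ k) A.e) = A.J := by
    calc A.E ((A.R y ^ 2 ^ k) A.e) = A.E ((A.R y ^ 2 ^ k) A.e) * (A.J * A.J) := by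
          rw [J_sq, mul_one]
      _ = _ := by rw [← mul_assoc, h1, one_mul]
  have := pow_of_E_eq y _ h4
  rw [pow_succ, mul_comm]
  exact this

end AL

end Pool.Agent.H687R3.AL
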