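import Mathlib
import Pool.Agent.H687R3.AL.Basic

set_option autoImplicit false
set_option linter.dupNamespace false

namespace Pool.Agent.H687R3.AL

open Subgroup MulAction

variable {Q : Type}

theorem L_inv_op (A : AL Q) (a b : Q) : (A.L a)⁻¹ (A.op a b) = b := by
  rw [Equiv.Perm.inv_eq_iff_eq]; rfl

theorem R_inv_op (A : AL Q) (a b : Q) : (A.R a)⁻¹ (A.op b a) = b := by
  rw [Equiv.Perm.inv_eq_iff_eq]; rfl

theorem op_L_inv (A : AL Q) (a b : Q) : A.op a ((A.L a)⁻¹ b) = b := by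
  change A.L a ((A.L a)⁻¹ b) = b
  simp

/-- From a left-commuting family of involutions to an elementary abelian 2-group. -/
theorem card_of_D [Finite Q] (e : Q) (D : Q → Q → Q) (h1 : ∀ x y, D x (D x y) = y)
    (h2 : ∀ x, D x e = x) (h3 : ∀ x y z, D x (D y z) = D y (D x z)) :
    ∃ n : ℕ, Nat.card Q = 2 ^ n := by
  have hc : ∀ x y, D x y = D y x := by
    intro x y
    have := h3 x y e
    rwa [h2, h2] at this
  have hxx : ∀ x, D x x = e := by
    intro x
    have := h1 x e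
    rwa [h2] at this
  let G : Group Q :=
    { mul := D
      one := e
      inv := id
      mul_assoc := by
        intro x y z
        change D (D x y) z = D x (D y z)
        rw [hc (D x y) z, h3, hc z y]
      one_mul := by
        intro x
        change D e x = x
        rw [hc, h2]
      mul_one := h2
      inv_mul_cancel := hxx }
  have hp : IsPGroup 2 Q := by
    intro x
    refine ⟨1, ?_⟩
    rw [pow_one, pow_two]
    exact hxx x
  have : Fact (Nat.Prime 2) := ⟨Nat.prime_two⟩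
  exact IsPGroup.iff_card.1 hp

/-- the exponent two case, from the task -/
theorem card_exp_two (hD : TaskDiamond) [Finite Q] (A : AL Q)
    (hcomm : ∀ x y, A.op x y = A.op y x) (hexp : ∀ x, A.op x x = A.e) :
    ∃ n : ℕ, Nat.card Q = 2 ^ n := by
  let D : Q → Q → Q := fun x y => (A.L x)⁻¹ ((A.L (A.op x y))⁻¹ x)
  have hDdef : ∀ x y, A.op (A.op x y) (A.op x (D x y)) = x := by
    intro x y
    change A.L (A.op x y) (A.L x ((A.L x)⁻¹ ((A.L (A.op x y))⁻¹ x))) = x
    simp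
  have huniq : ∀ x y z, A.op (A.op x y) (A.op x z) = x → z = D x y := by
    intro x y z h
    have := h.trans (hDdef x y).symm
    exact (A.bijL x).1 ((A.bijL _).1 this)
  refine card_of_D A.e D ?_ ?_ (hD Q A hcomm hexp D hDdef)
  · intro x y
    symm
    apply huniq
    rw [hcomm, hDdef]
  · intro x
    symm
    apply huniq
    rw [A.idr, hexp, A.idr]

variable (A : AL Q)

/-- Quotient of an automorphic loop by the orbits of a subgroup normalised by all translations. -/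
theorem quotient_card [Finite Q] (hD : TaskDiamond) (N : Subgroup (Equiv.Perm Q))
    (hJ : A.J ∈ N) (hp : IsPGroup 2 N)
    (hL : ∀ x, ∀ n ∈ N, A.L x * n * (A.L x)⁻¹ ∈ N) (hL' : ∀ x, ∀ n ∈ N, (A.L x)⁻¹ * n * A.L x ∈ N)
    (hR : ∀ x, ∀ n ∈ N, A.R x * n * (A.R x)⁻¹ ∈ N)
    (hR' : ∀ x, ∀ n ∈ N, (A.R x)⁻¹ * n * A.R x ∈ N) :
    ∃ n : ℕ, Nat.card Q = 2 ^ n := by
  classical
  have : Fact (Nat.Prime 2) := ⟨Nat.prime_two⟩
  let s : Setoid Q :=
    { r := fun x y => ∃ n ∈ N, n x = y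
      iseqv :=
        { refl := fun x => ⟨1, one_mem _, rfl⟩
          symm := by
            rintro x y ⟨n, hn, rfl⟩
            exact ⟨n⁻¹, inv_mem hn, by simp⟩
          trans := by
            rintro x y z ⟨n, hn, rfl⟩ ⟨m, hm, rfl⟩
            exact ⟨m * n, mul_mem hm hn, rfl⟩ } }
  have hs : ∀ x y, s x y ↔ ∃ n ∈ N, n x = y := fun _ _ => Iff.rfl
  have hopL : ∀ a b c, s b c → s (A.op a b) (A.op a c) := by
    rintro a b c ⟨n, hn, rfl⟩
    refine ⟨_, hL a n hn, ?_⟩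
    change A.L a (n ((A.L a)⁻¹ (A.op a b))) = _
    rw [L_inv_op]; rfl
  have hopL' : ∀ a b c, s (A.op a b) (A.op a c) → s b c := by
    rintro a b c ⟨n, hn, h⟩
    refine ⟨_, hL' a n hn, ?_⟩
    change (A.L a)⁻¹ (n (A.op a b)) = c
    rw [h, Equiv.Perm.inv_eq_iff_eq]; rfl
  have hopR : ∀ a b c, s b c → s (A.op b a) (A.op c a) := by
    rintro a b c ⟨n, hn, rfl⟩
    refine ⟨_, hR a n hn, ?_⟩
    change A.R a (n ((A.R a)⁻¹ (A.op b a))) = _
    rw [R_inv_op]; rfl
  have hopR' : ∀ a b c, s (A.op b a) (A.op c a) → s b c := by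
    rintro a b c ⟨n, hn, h⟩
    refine ⟨_, hR' a n hn, ?_⟩
    change (A.R a)⁻¹ (n (A.op b a)) = c
    rw [h, Equiv.Perm.inv_eq_iff_eq]; rfl
  have hop : ∀ a b c d, s a b → s c d → s (A.op a c) (A.op b d) := by
    intro a b c d h1 h2
    exact s.trans (hopL a c d h2) (hopR d a b h1)
  let P := Quotient s
  let f : Q → P := Quotient.mk s
  have hf : ∀ x y, f x = f y ↔ s x y := fun x y => Quotient.eq
  let opP : P → P → P := Quotient.map₂ A.op (fun a b h1 c d h2 => hop a b c d h1 h2)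
  have hopP : ∀ x y, opP (f x) (f y) = f (A.op x y) := fun x y => rfl
  have hsurj : ∀ q : P, ∃ x, f x = q := fun q => Quotient.exists_rep q
  -- solving in `Q`
  let B : AL P :=
    { op := opP
      e := f A.e
      idl := by
        intro q; obtain ⟨x, rfl⟩ := hsurj q
        rw [hopP, A.idl]
      idr := by
        intro q; obtain ⟨x, rfl⟩ := hsurj q
        rw [hopP, A.idr]
      bijL := by
        intro q; obtain ⟨x, rfl⟩ := hsurj q
        constructor
        · intro a b hab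
          obtain ⟨a, rfl⟩ := hsurj a; obtain ⟨b, rfl⟩ := hsurj b
          have h : f (A.op x a) = f (A.op x b) := hab
          rw [hf] at h ⊢
          exact hopL' x a b h
        · intro a
          obtain ⟨a, rfl⟩ := hsurj a
          obtain ⟨b, hb⟩ := (A.bijL x).2 a
          exact ⟨f b, by change f (A.op x b) = f a; rw [← hb]⟩
      bijR := by
        intro q; obtain ⟨x, rfl⟩ := hsurj q
        constructor
        · intro a b hab
          obtain ⟨a, rfl⟩ := hsurj a; obtain ⟨b, rfl⟩ := hsurj b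
          have h : f (A.op a x) = f (A.op b x) := hab
          rw [hf] at h ⊢
          exact hopR' x a b h
        · intro a
          obtain ⟨a, rfl⟩ := hsurj a
          obtain ⟨b, hb⟩ := (A.bijR x).2 a
          exact ⟨f b, by change f (A.op b x) = f a; rw [← hb]⟩
      autL := by
        intro x y z₁ z₂ w₁ w₂ h1 h2
        obtain ⟨x, rfl⟩ := hsurj x; obtain ⟨y, rfl⟩ := hsurj y
        obtain ⟨z₁, rfl⟩ := hsurj z₁; obtain ⟨z₂, rfl⟩ := hsurj z₂
        obtain ⟨w₁, rfl⟩ := hsurj w₁; obtain ⟨w₂, rfl⟩ := hsurj w₂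
        simp only [hopP] at h1 h2 ⊢
        obtain ⟨v₁, hv₁⟩ := (A.bijL (A.op y x)).2 (A.op y (A.op x z₁))
        obtain ⟨v₂, hv₂⟩ := (A.bijL (A.op y x)).2 (A.op y (A.op x z₂))
        have e1 : s w₁ v₁ := hopL' (A.op y x) _ _ (by
          rw [← hf, h1]; exact congrArg f hv₁.symm)
        have e2 : s w₂ v₂ := hopL' (A.op y x) _ _ (by
          rw [← hf, h2]; exact congrArg f hv₂.symm)
        have h3 := A.autL x y z₁ z₂ v₁ v₂ hv₁ hv₂
        rw [← h3, hf]
        exact hopL _ _ _ (hop _ _ _ _ e1 e2)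
      autR := by
        intro x y z₁ z₂ w₁ w₂ h1 h2
        obtain ⟨x, rfl⟩ := hsurj x; obtain ⟨y, rfl⟩ := hsurj y
        obtain ⟨z₁, rfl⟩ := hsurj z₁; obtain ⟨z₂, rfl⟩ := hsurj z₂
        obtain ⟨w₁, rfl⟩ := hsurj w₁; obtain ⟨w₂, rfl⟩ := hsurj w₂
        simp only [hopP] at h1 h2 ⊢
        obtain ⟨v₁, hv₁⟩ := (A.bijR (A.op x y)).2 (A.op (A.op z₁ x) y)
        obtain ⟨v₂, hv₂⟩ := (A.bijR (A.op x y)).2 (A.op (A.op z₂ x) y)
        have e1 : s w₁ v₁ := hopR' (A.op x y) _ _ (by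
          rw [← hf, h1]; exact congrArg f hv₁.symm)
        have e2 : s w₂ v₂ := hopR' (A.op x y) _ _ (by
          rw [← hf, h2]; exact congrArg f hv₂.symm)
        have h3 := A.autR x y z₁ z₂ v₁ v₂ hv₁ hv₂
        rw [← h3, hf]
        exact hopR _ _ _ (hop _ _ _ _ e1 e2)
      autT := by
        intro x z₁ z₂ w₁ w₂ h1 h2
        obtain ⟨x, rfl⟩ := hsurj x
        obtain ⟨z₁, rfl⟩ := hsurj z₁; obtain ⟨z₂, rfl⟩ := hsurj z₂
        obtain ⟨w₁, rfl⟩ := hsurj w₁; obtain ⟨w₂, rfl⟩ := hsurj w₂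
        simp only [hopP] at h1 h2 ⊢
        obtain ⟨v₁, hv₁⟩ := (A.bijR x).2 (A.op x z₁)
        obtain ⟨v₂, hv₂⟩ := (A.bijR x).2 (A.op x z₂)
        have e1 : s w₁ v₁ := hopR' x _ _ (by
          rw [← hf, h1]; exact congrArg f hv₁.symm)
        have e2 : s w₂ v₂ := hopR' x _ _ (by
          rw [← hf, h2]; exact congrArg f hv₂.symm)
        have h3 := A.autT x z₁ z₂ v₁ v₂ hv₁ hv₂
        rw [← h3, hf]
        exact hopR _ _ _ (hop _ _ _ _ e1 e2) }
  have hinv : ∀ x, s x (A.inv x) := fun x => ⟨A.J, hJ, rfl⟩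
  have hBexp : ∀ q, B.op q q = B.e := by
    intro q; obtain ⟨x, rfl⟩ := hsurj q
    change f (A.op x x) = f A.e
    rw [hf, ← AL.op_inv x]
    exact hopL x _ _ (hinv x)
  have hBcomm : ∀ q r, B.op q r = B.op r q := by
    intro q r
    obtain ⟨x, rfl⟩ := hsurj q; obtain ⟨y, rfl⟩ := hsurj r
    change f (A.op x y) = f (A.op y x)
    rw [hf]
    refine s.trans (hinv _) ?_
    rw [AL.aaip]
    exact s.symm (hop _ _ _ _ (hinv y) (hinv x))
  obtain ⟨m, hm⟩ := card_exp_two hD B hBcomm hBexp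
  -- fibres
  have hfib : ∀ q : P, Nat.card {y // f y = q} = Nat.card {y // f y = f A.e} := by
    intro q
    obtain ⟨x, rfl⟩ := hsurj q
    refine (Nat.card_congr ((A.L x).subtypeEquiv ?_)).symm
    intro y
    change f y = f A.e ↔ f (A.op x y) = f x
    rw [hf, hf]
    constructor
    · intro h
      have h2 := hopL x _ _ h
      rwa [A.idr] at h2
    · intro h
      apply hopL' x
      rwa [A.idr]
  have horb : ∃ j, Nat.card {y // f y = f A.e} = 2 ^ j := by
    have h1 : Nat.card {y // f y = f A.e} = Nat.card (MulAction.orbit N A.e) := by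
      refine Nat.card_congr (Equiv.subtypeEquivRight ?_)
      intro y
      rw [hf, MulAction.mem_orbit_iff]
      constructor
      · intro h
        obtain ⟨n, hn, h⟩ := s.symm h
        exact ⟨⟨n, hn⟩, h⟩
      · rintro ⟨n, h⟩
        exact s.symm ⟨n.1, n.2, h⟩
    rw [h1]
    obtain ⟨j, hj⟩ := IsPGroup.iff_card.1 hp
    have h2 : Nat.card (MulAction.orbit N A.e) ∣ Nat.card N := by
      rw [Nat.card_congr (MulAction.orbitEquivQuotientStabilizer N A.e)]
      exact Subgroup.card_quotient_dvd_card _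
    rw [hj] at h2
    obtain ⟨i, _, hi⟩ := (Nat.dvd_prime_pow Nat.prime_two).1 h2
    exact ⟨i, hi⟩
  obtain ⟨j, hj⟩ := horb
  refine ⟨m + j, ?_⟩
  have : Finite P := Quotient.finite s
  have := Fintype.ofFinite P
  rw [← Nat.card_congr (Equiv.sigmaFiberEquiv f), Nat.card_sigma]
  simp only [hfib, hj]
  rw [Finset.sum_const, Finset.card_univ, ← Nat.card_eq_fintype_card]
  change Nat.card P • 2 ^ j = _
  rw [hm, smul_eq_mul, ← pow_add]

/-- **Second half**, modulo the tasks. -/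
theorem card_of_orders (hD : TaskDiamond) (hB : TaskBaerSuzuki) [Finite Q]
    (h : ∀ y, ∃ k : ℕ, (A.R y ^ 2 ^ k) A.e = A.e) : ∃ n : ℕ, Nat.card Q = 2 ^ n := by
  let τ : aut A.E := ⟨A.J, AL.J_mem_aut⟩
  have hτ : τ * τ = 1 := Subtype.ext AL.J_sq
  have hg : ∀ g : aut A.E, ∃ n, (τ * (g * τ * g⁻¹)) ^ 2 ^ n = 1 := by
    intro g
    obtain ⟨k, hk⟩ := h (g.1 A.e)
    refine ⟨k, Subtype.ext ?_⟩
    have h1 : g.1 * A.J * (g.1)⁻¹ = A.E (g.1 A.e) := by
      have := g.2 A.e
      rwa [AL.E_e] at this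
    change (A.J * (g.1 * A.J * (g.1)⁻¹)) ^ 2 ^ k = 1
    rw [h1]
    have h2 : (A.E (g.1 A.e) * A.J) ^ 2 ^ k = 1 := by
      rw [AL.pow_EJ, hk, AL.E_e, AL.J_sq]
    have h3 : A.J * A.E (g.1 A.e) = (A.E (g.1 A.e) * A.J)⁻¹ := by
      rw [mul_inv_rev, AL.J_inv, inv_eq_of_mul_eq_one_left (AL.E_sq (g.1 A.e))]
    rw [h3, inv_pow, h2, inv_one]
  have hN := hB (aut A.E) τ hτ hg
  set N0 := Subgroup.normalClosure {τ} with hN0
  have hnorm : N0.Normal := Subgroup.normalClosure_normal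
  have hconj : ∀ g ∈ aut A.E, ∀ n ∈ N0.map (aut A.E).subtype,
      g * n * g⁻¹ ∈ N0.map (aut A.E).subtype := by
    rintro g hg _ ⟨n, hn, rfl⟩
    exact ⟨⟨g, hg⟩ * n * ⟨g, hg⟩⁻¹, hnorm.conj_mem n hn _, rfl⟩
  have hconj' : ∀ g ∈ aut A.E, ∀ n ∈ N0.map (aut A.E).subtype,
      g⁻¹ * n * g ∈ N0.map (aut A.E).subtype := by
    intro g hg n hn
    have := hconj g⁻¹ (inv_mem hg) n hn
    rwa [inv_inv] at this
  refine quotient_card A hD (N0.map (aut A.E).subtype)
    ⟨τ, Subgroup.subset_normalClosure rfl, rfl⟩ (hN.map _)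
    (fun x => hconj _ (AL.L_mem_aut x)) (fun x => hconj' _ (AL.L_mem_aut x))
    (fun x => hconj _ (AL.R_mem_aut x)) (fun x => hconj' _ (AL.R_mem_aut x))

end Pool.Agent.H687R3.AL
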