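import Mathlib
import Pool.Agent.H687R3.AL.Elem

set_option autoImplicit false
set_option linter.dupNamespace false

namespace Pool.Agent.H687R3.AL

theorem iter_eq {Q : Type} (A : AL Q) (x : Q) (n : ℕ) (z : Q) :
    (fun y => A.op y x)^[n] z = (A.R x ^ n) z := by
  have := Equiv.Perm.iterate_eq_pow (A.R x) n
  exact congrFun this z

theorem final (hD : TaskDiamond) (hB : TaskBaerSuzuki) :
  ∀ (Q : Type) [Fintype Q] (op : Q → Q → Q) (e : Q),
    (∀ x, op e x = x ∧ op x e = x) →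
    (∀ x, Function.Bijective (fun y => op x y)) →
    (∀ x, Function.Bijective (fun y => op y x)) →
    (∀ x y z₁ z₂ w₁ w₂ : Q,
      op (op y x) w₁ = op y (op x z₁) →
      op (op y x) w₂ = op y (op x z₂) →
      op (op y x) (op w₁ w₂) = op y (op x (op z₁ z₂))) →
    (∀ x y z₁ z₂ w₁ w₂ : Q,
      op w₁ (op x y) = op (op z₁ x) y →
      op w₂ (op x y) = op (op z₂ x) y →
      op (op w₁ w₂) (op x y) = op (op (op z₁ z₂) x) y) →
    (∀ x z₁ z₂ w₁ w₂ : Q,
      op w₁ x = op x z₁ →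
      op w₂ x = op x z₂ →
      op (op w₁ w₂) x = op x (op z₁ z₂)) →
    ((∃ k : ℕ, Fintype.card Q = 2 ^ k) ↔
      ∀ x : Q, ∃ k : ℕ, (fun y => op y x)^[2 ^ k] e = e) := by
  intro Q _ op e hid hL hR h1 h2 h3
  let A : AL Q :=
    { op := op, e := e, idl := fun x => (hid x).1, idr := fun x => (hid x).2, bijL := hL,
      bijR := hR, autL := h1, autR := h2, autT := h3 }
  constructor
  · rintro ⟨n, hn⟩ x
    obtain ⟨k, hk⟩ := AL.order_of_card (A := A) (n := n)
      (by rw [Nat.card_eq_fintype_card, hn]) x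
    exact ⟨k, (iter_eq A x _ _).trans hk⟩
  · intro h
    obtain ⟨n, hn⟩ := card_of_orders A hD hB (fun y => by
      obtain ⟨k, hk⟩ := h y
      exact ⟨k, (iter_eq A y _ _).symm.trans hk⟩)
    exact ⟨n, by rw [← Nat.card_eq_fintype_card, hn]⟩

end Pool.Agent.H687R3.AL
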